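import Pool.Agent.N363.CND.Final

/-!
There are CND graphs (connected nontraceable detour graphs) of arbitrarily large girth.
-/

set_option autoImplicit false

namespace Pool.Agent.Results.MP_03af38_co.LargeGirth

open SimpleGraph

/-- A CND graph: connected, not traceable (every path misses a vertex), and every vertex is an
endvertex of a longest path. -/
def IsCND {V : Type} (G : SimpleGraph V) : Prop :=
  G.Connected ∧
  (∀ (a b : V) (p : G.Walk a b), p.IsPath → ∃ v, v ∉ p.support) ∧
  ∀ v, ∃ (w : V) (p : G.Walk v w), p.IsPath ∧
    ∀ (a b : V) (q : G.Walk a b), q.IsPath → q.length ≤ p.length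

/-- For every `g` there is a finite CND graph with a cycle whose girth is at least `g`. -/
theorem result (g : ℕ) : ∃ (V : Type) (_ : Finite V) (G : SimpleGraph V),
    IsCND G ∧ ¬ G.IsAcyclic ∧ g ≤ G.girth :=
  Pool.Agent.N363.CND.conclusion g

end Pool.Agent.Results.MP_03af38_co.LargeGirth
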